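import Mathlib

/-!
# MP_a5fc84_co: additive covering of `Alg_n(X)` for approximate subfields

If `X` is an infinite approximate subfield of a field `F` then the subring generated by `X` is a
subfield and is covered by finitely many additive translates of `X`.
-/

set_option autoImplicit false

open Pointwise

namespace Pool.Agent.Results.MP_a5fc84_co.AlgCovered

universe u

variable {F : Type u} [Field F]

/-- A subset `X` (finite or infinite) of a field is an approximate subfield if `0 ∈ X`, `X = -X`,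
`1 ∈ X`, `X \ {0} = (X \ {0})⁻¹` and there is a finite set `E` with
`X X + X ⊆ E X ∩ (E + X)`. -/
structure IsApproxSubfield (X : Set F) : Prop where
  zero_mem : 0 ∈ X
  eq_neg : X = -X
  one_mem : 1 ∈ X
  eq_inv : X \ {0} = (X \ {0})⁻¹
  exists_finite : ∃ E : Set F, E.Finite ∧ X * X + X ⊆ (E * X) ∩ (E + X)

/-- `S_n(X)`: the set of sums of at most `n` terms, each term being a product of at most `n`
elements of `X`. -/
def sumProd (n : ℕ) (X : Set F) : Set F :=
  {y | ∃ l : List (List F), l.length ≤ n ∧ (∀ t ∈ l, t.length ≤ n ∧ ∀ a ∈ t, a ∈ X) ∧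
    y = (l.map List.prod).sum}

/-- `Alg_n(X) = {a / b : a, b ∈ S_n(X), b ≠ 0}`. -/
def algSet (n : ℕ) (X : Set F) : Set F :=
  {y | ∃ a ∈ sumProd n X, ∃ b ∈ sumProd n X, b ≠ 0 ∧ y = a / b}

/-- covered by finitely many additive translates -/
def Cov (X Y : Set F) : Prop := ∃ T : Set F, T.Finite ∧ Y ⊆ T + X

lemma Cov.subset {X Y Z : Set F} (h : Cov X Z) (hYZ : Y ⊆ Z) : Cov X Y := by
  obtain ⟨T, hT, h⟩ := h
  exact ⟨T, hT, hYZ.trans h⟩

lemma neg_mem_of {X : Set F} (hX : IsApproxSubfield X) {x : F} (hx : x ∈ X) : -x ∈ X := by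
  rw [hX.eq_neg]
  simpa using hx

lemma inv_mem_of {X : Set F} (hX : IsApproxSubfield X) {x : F} (hx : x ∈ X) (h0 : x ≠ 0) :
    x⁻¹ ∈ X := by
  have h1 : x⁻¹ ∈ X \ {0} := by
    rw [hX.eq_inv, Set.mem_inv, inv_inv]
    exact ⟨hx, h0⟩
  exact h1.1

lemma Cov.add {X Y Z : Set F} (hX : IsApproxSubfield X) (hY : Cov X Y) (hZ : Cov X Z) :
    Cov X (Y + Z) := by
  obtain ⟨E, hE, hXE⟩ := hX.exists_finite
  obtain ⟨T, hT, hY⟩ := hY
  obtain ⟨T', hT', hZ⟩ := hZ
  refine ⟨T + T' + E, (hT.add hT').add hE, ?_⟩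
  rintro _ ⟨y, hy, z, hz, rfl⟩
  obtain ⟨t, ht, x, hx, rfl⟩ := hY hy
  obtain ⟨t', ht', x', hx', rfl⟩ := hZ hz
  have h1 : x + x' ∈ X * X + X := ⟨x, ⟨x, hx, 1, hX.one_mem, by simp⟩, x', hx', rfl⟩
  obtain ⟨e, he, w, hw, hew⟩ := (hXE h1).2
  refine ⟨t + t' + e, ⟨t + t', ⟨t, ht, t', ht', rfl⟩, e, he, rfl⟩, w, hw, ?_⟩
  simp only at hew ⊢
  rw [add_assoc, hew]
  ring

/-- each element of the generated subring maps `X` into finitely many translates of `X` -/
lemma cov_smul {X : Set F} (hX : IsApproxSubfield X) {s : F} (hs : s ∈ Subring.closure X) :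
    Cov X ((fun x => s * x) '' X) := by
  obtain ⟨E, hE, hXE⟩ := hX.exists_finite
  induction hs using Subring.closure_induction with
  | mem x hx =>
    refine ⟨E, hE, ?_⟩
    rintro _ ⟨y, hy, rfl⟩
    have h1 : x * y ∈ X * X + X := ⟨x * y, ⟨x, hx, y, hy, rfl⟩, 0, hX.zero_mem, by simp⟩
    exact (hXE h1).2
  | zero =>
    refine ⟨{0}, Set.finite_singleton _, ?_⟩
    rintro _ ⟨y, hy, rfl⟩
    exact ⟨0, rfl, 0, hX.zero_mem, by simp⟩
  | one =>
    refine ⟨{0}, Set.finite_singleton _, ?_⟩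
    rintro _ ⟨y, hy, rfl⟩
    exact ⟨0, rfl, y, hy, by simp⟩
  | add a b _ _ iha ihb =>
    refine (Cov.add hX iha ihb).subset ?_
    rintro _ ⟨y, hy, rfl⟩
    exact ⟨a * y, ⟨y, hy, rfl⟩, b * y, ⟨y, hy, rfl⟩, by simp [add_mul]⟩
  | neg a _ iha =>
    obtain ⟨T, hT, h⟩ := iha
    refine ⟨-T, hT.neg, ?_⟩
    rintro _ ⟨y, hy, rfl⟩
    obtain ⟨t, ht, x, hx, htx⟩ := h ⟨y, hy, rfl⟩
    refine ⟨-t, by simpa using ht, -x, neg_mem_of hX hx, ?_⟩
    simp only at htx ⊢
    rw [neg_mul, ← htx]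
    ring
  | mul a b _ _ iha ihb =>
    obtain ⟨T, hT, h⟩ := ihb
    have h1 : Cov X ((fun t => a * t) '' T) := by
      refine ⟨(fun t => a * t) '' T, hT.image _, ?_⟩
      intro t ht
      exact ⟨t, ht, 0, hX.zero_mem, by simp⟩
    refine (Cov.add hX h1 iha).subset ?_
    rintro _ ⟨y, hy, rfl⟩
    obtain ⟨t, ht, x, hx, htx⟩ := h ⟨y, hy, rfl⟩
    refine ⟨a * t, ⟨t, ht, rfl⟩, a * x, ⟨x, hx, rfl⟩, ?_⟩
    simp only at htx ⊢
    rw [mul_assoc, ← htx]
    ring

/-- if `X` is infinite, the nonzero elements of the generated subring are covered by finitely many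
multiplicative translates of `X` -/
lemma mul_cover {X : Set F} (hX : IsApproxSubfield X) (hinf : X.Infinite) :
    ∃ E₂ : Set F, E₂.Finite ∧ ∀ b ∈ Subring.closure X, b ≠ 0 →
      ∃ c ∈ E₂, ∃ x ∈ X, x ≠ 0 ∧ c ∈ Subring.closure X ∧ c ≠ 0 ∧ b = c * x := by
  obtain ⟨E, hE, hXE⟩ := hX.exists_finite
  have hsub : ∀ x ∈ X, ∀ y ∈ X, x - y ∈ E * X := by
    intro x hx y hy
    have h1 : x - y ∈ X * X + X :=
      ⟨x, ⟨x, hx, 1, hX.one_mem, by simp⟩, -y, neg_mem_of hX hy, by simp [sub_eq_add_neg]⟩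
    exact (hXE h1).1
  refine ⟨E * E * E⁻¹, (hE.mul hE).mul hE.inv, ?_⟩
  intro b hb hb0
  obtain ⟨T, hT, hbT⟩ := cov_smul hX hb
  -- pigeonhole
  have hch : ∀ x : X, ∃ t ∈ T, b * x - t ∈ X := by
    rintro ⟨x, hx⟩
    obtain ⟨t, ht, y, hy, hty⟩ := hbT ⟨x, hx, rfl⟩
    refine ⟨t, ht, ?_⟩
    simp only at hty ⊢
    rw [← hty]
    simpa using hy
  choose f hf1 hf2 using hch
  have : Infinite X := hinf.to_subtype
  obtain ⟨x, x', hne, hff⟩ : ∃ x x' : X, x ≠ x' ∧ f x = f x' := by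
    by_contra hcon
    push Not at hcon
    have hinj : Function.Injective f := fun a b hab => by
      by_contra h
      exact hcon a b h hab
    have : (Set.range f).Infinite := Set.infinite_range_of_injective hinj
    exact this (hT.subset (by rintro _ ⟨a, rfl⟩; exact hf1 a))
  have hd : ((x : F) - x') ≠ 0 := by
    intro h
    exact hne (Subtype.ext (sub_eq_zero.1 h))
  obtain ⟨e', he', y', hy', h2⟩ := hsub x x.2 x' x'.2
  obtain ⟨e, he, y, hy, h1⟩ := hsub _ (hf2 x) _ (hf2 x')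
  simp only at h1 h2
  have h3 : b * ((x : F) - x') = e * y := by
    rw [h1, hff]
    ring
  have hy'0 : y' ≠ 0 := by
    rintro rfl
    rw [mul_zero] at h2
    exact hd h2.symm
  have he'0 : e' ≠ 0 := by
    rintro rfl
    rw [zero_mul] at h2
    exact hd h2.symm
  have hey0 : e * y ≠ 0 := by
    rw [← h3]
    exact mul_ne_zero hb0 hd
  have hy0 : y ≠ 0 := right_ne_zero_of_mul hey0
  have he0 : e ≠ 0 := left_ne_zero_of_mul hey0
  have hbe : b = e * e'⁻¹ * (y * y'⁻¹) := by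
    rw [← h2] at h3
    field_simp
    linear_combination h3
  obtain ⟨e'', he'', z, hz, h4⟩ : y * y'⁻¹ ∈ E * X := by
    have h5 : y * y'⁻¹ ∈ X * X + X :=
      ⟨y * y'⁻¹, ⟨y, hy, y'⁻¹, inv_mem_of hX hy' hy'0, rfl⟩, 0, hX.zero_mem, by simp⟩
    exact (hXE h5).1
  simp only at h4
  have hz0 : z ≠ 0 := by
    rintro rfl
    rw [mul_zero] at h4
    exact mul_ne_zero hy0 (inv_ne_zero hy'0) h4.symm
  have hbz : b = (e * e'' * e'⁻¹) * z := by
    rw [hbe, ← h4]
    ring
  have hc : e * e'' * e'⁻¹ = b * z⁻¹ := by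
    rw [hbz]
    field_simp
  refine ⟨e * e'' * e'⁻¹, ⟨e * e'', ⟨e, he, e'', he'', rfl⟩, e'⁻¹, by simpa using he', rfl⟩, z, hz,
    hz0, ?_, ?_, hbz⟩
  · rw [hc]
    exact Subring.mul_mem _ hb (Subring.subset_closure (inv_mem_of hX hz hz0))
  · rw [hc]
    exact mul_ne_zero hb0 (inv_ne_zero hz0)

/-- if `X` is infinite, the subring generated by `X` is closed under inverses -/
lemma inv_mem_closure {X : Set F} (hX : IsApproxSubfield X) (hinf : X.Infinite) {b : F}
    (hb : b ∈ Subring.closure X) (hb0 : b ≠ 0) : b⁻¹ ∈ Subring.closure X := by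
  obtain ⟨E₂, hE₂, h⟩ := mul_cover hX hinf
  -- first for all elements: powers
  have key : ∀ c ∈ Subring.closure X, c ≠ 0 → c⁻¹ ∈ Subring.closure X := by
    intro c hc hc0
    have hch : ∀ j : ℕ, ∃ d ∈ E₂, ∃ x ∈ X, x ≠ 0 ∧ c ^ j = d * x := by
      intro j
      obtain ⟨d, hd, x, hx, hx0, -, -, he⟩ := h (c ^ j) (Subring.pow_mem _ hc j) (pow_ne_zero _ hc0)
      exact ⟨d, hd, x, hx, hx0, he⟩
    choose f hf1 g hg1 hg2 hfg using hch
    obtain ⟨i, j, hij, hff⟩ : ∃ i j : ℕ, i < j ∧ f i = f j := by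
      by_contra hcon
      push Not at hcon
      have hinj : Function.Injective f := by
        intro a b hab
        rcases lt_trichotomy a b with h | h | h
        · exact absurd hab (hcon a b h)
        · exact h
        · exact absurd hab.symm (hcon b a h)
      have : (Set.range f).Infinite := Set.infinite_range_of_injective hinj
      exact this (hE₂.subset (by rintro _ ⟨a, rfl⟩; exact hf1 a))
    have hfi : f i ≠ 0 := by
      intro h0
      have := hfg i
      rw [h0, zero_mul] at this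
      exact pow_ne_zero _ hc0 this
    -- c⁻¹ = c ^ (j - 1 - i) * (g i) * (g j)⁻¹
    have he : c⁻¹ = c ^ (j - 1 - i) * (g i * (g j)⁻¹) := by
      have h1 := hfg i
      have h2 := hfg j
      rw [← hff] at h2
      have hgj := hg2 j
      have h3 : c ^ j = c ^ (j - 1 - i) * c ^ i * c := by
        rw [← pow_add, ← pow_succ]
        congr 1
        omega
      field_simp
      have h4 : f i * g j = f i * (c ^ (j - 1 - i) * g i * c) := by
        rw [← h2, h3, h1]
        ring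
      have h5 := mul_left_cancel₀ hfi h4
      linear_combination h5
    rw [he]
    exact Subring.mul_mem _ (Subring.pow_mem _ hc _) (Subring.mul_mem _
      (Subring.subset_closure (hg1 i)) (Subring.subset_closure (inv_mem_of hX (hg1 j) (hg2 j))))
  exact key b hb hb0

/-- if `X` is infinite, the subring generated by `X` is covered by finitely many additive
translates of `X` -/
lemma closure_cov {X : Set F} (hX : IsApproxSubfield X) (hinf : X.Infinite) :
    Cov X (Subring.closure X : Set F) := by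
  obtain ⟨E₂, hE₂, h⟩ := mul_cover hX hinf
  have hch : ∀ c : F, ∃ T : Set F, T.Finite ∧ (c ∈ Subring.closure X →
      (fun x => c * x) '' X ⊆ T + X) := by
    intro c
    by_cases hc : c ∈ Subring.closure X
    · obtain ⟨T, hT, hc'⟩ := cov_smul hX hc
      exact ⟨T, hT, fun _ => hc'⟩
    · exact ⟨∅, Set.finite_empty, fun h => absurd h hc⟩
  choose T hT hTc using hch
  refine ⟨(⋃ c ∈ E₂, T c) ∪ {0}, (hE₂.biUnion (fun c _ => hT c)).union (Set.finite_singleton _), ?_⟩
  intro b hb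
  by_cases hb0 : b = 0
  · subst hb0
    exact ⟨0, Or.inr rfl, 0, hX.zero_mem, by simp⟩
  · obtain ⟨c, hc, x, hx, hx0, hc1, hc0, rfl⟩ := h b hb hb0
    obtain ⟨t, ht, y, hy, hty⟩ := hTc c hc1 ⟨x, hx, rfl⟩
    exact ⟨t, Or.inl (Set.mem_biUnion hc ht), y, hy, hty⟩

lemma sumProd_subset (n : ℕ) (X : Set F) : sumProd n X ⊆ Subring.closure X := by
  rintro _ ⟨l, -, hl, rfl⟩
  apply Subring.list_sum_mem
  intro y hy
  obtain ⟨t, ht, rfl⟩ := List.mem_map.1 hy
  apply Subring.list_prod_mem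
  intro a ha
  exact Subring.subset_closure ((hl t ht).2 a ha)

lemma finite_lists {α : Type u} (X : Set α) (hX : X.Finite) (n : ℕ) :
    {t : List α | t.length ≤ n ∧ ∀ a ∈ t, a ∈ X}.Finite := by
  have : Finite X := hX.to_subtype
  have h := (List.finite_length_le X n).image (List.map Subtype.val)
  refine h.subset ?_
  rintro t ⟨h1, h2⟩
  refine ⟨t.attach.map (fun a => ⟨a.1, h2 a.1 a.2⟩), ?_, ?_⟩
  · simpa using h1
  · rw [List.map_map]
    simp [Function.comp_def]

lemma sumProd_finite (n : ℕ) (X : Set F) (hX : X.Finite) : (sumProd n X).Finite := by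
  have h := (finite_lists _ (finite_lists X hX n) n).image (fun l => (l.map List.prod).sum)
  refine h.subset ?_
  rintro _ ⟨l, h1, h2, rfl⟩
  exact ⟨l, ⟨h1, h2⟩, rfl⟩

/-- **Additive covering of `Alg_n(X)`.**  For every approximate subfield `X` (finite or infinite) of
a field and every `n`, the set `Alg_n(X)` is covered by finitely many additive translates of
`X`. -/
theorem result (X : Set F) (hX : IsApproxSubfield X) (n : ℕ) :
    ∃ T : Set F, T.Finite ∧ algSet n X ⊆ T + X := by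
  by_cases hinf : X.Infinite
  · obtain ⟨T, hT, h⟩ := closure_cov hX hinf
    refine ⟨T, hT, ?_⟩
    rintro _ ⟨a, ha, b, hb, hb0, rfl⟩
    apply h
    rw [div_eq_mul_inv]
    exact Subring.mul_mem _ (sumProd_subset n X ha)
      (inv_mem_closure hX hinf (sumProd_subset n X hb) hb0)
  · rw [Set.not_infinite] at hinf
    have h1 := sumProd_finite n X hinf
    refine ⟨algSet n X, ?_, ?_⟩
    · refine (h1.div h1).subset ?_
      rintro _ ⟨a, ha, b, hb, hb0, rfl⟩
      exact ⟨a, ha, b, hb, rfl⟩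
    · intro y hy
      exact ⟨y, hy, 0, hX.zero_mem, by simp⟩

end Pool.Agent.Results.MP_a5fc84_co.AlgCovered
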